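import Pool.Agent.H86.FlF

set_option autoImplicit false

namespace Pool.Agent.Results.MP_10cf3c_an.NoLift

open Pool.Agent.H86.Fl

universe u v

theorem result (H : Type u) [NormedAddCommGroup H] [InnerProductSpace ℂ H] [CompleteSpace H]
    [TopologicalSpace.SeparableSpace H] (hH : ¬ FiniteDimensional ℂ H) :
    (∃ (C : Type u) (_ : Ring C) (_ : StarRing C) (π : (H →L[ℂ] H) →+* C),
      Function.Surjective π ∧ (∀ T, π (star T) = star (π T)) ∧
        ∀ T, π T = 0 ↔ IsCompactOperator T) ∧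
    ∀ (C : Type v) [Ring C] [StarRing C] (π : (H →L[ℂ] H) →+* C),
      Function.Surjective π → (∀ T, π (star T) = star (π T)) →
      (∀ T, π T = 0 ↔ IsCompactOperator T) →
      ∃ F : Set C, IsMaxFilt F ∧ ∀ X : Set (H →L[ℂ] H), (∀ p ∈ X, IsStarProjection p) →
        (∀ p ∈ X, ∀ q ∈ X, Commute p q) → IsFilt (gen X) → π '' gen X ≠ F :=
  ⟨calkin, fun _ _ _ π _ hs hk => main hH π hs hk⟩

end Pool.Agent.Results.MP_10cf3c_an.NoLift
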